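import Pool.Agent.H355R3.UF.Stmts

set_option autoImplicit false

namespace Pool.Agent.H12R3.UF

open H355R3 RegularWreathProduct

variable {M N : Type} [Group M] [Group N]

/-- the base group -/
def jj : (N → M) →* RegularWreathProduct M N where
  toFun f := ⟨f, 1⟩
  map_one' := rfl
  map_mul' a b := by
    apply RegularWreathProduct.ext
    · funext x
      simp
    · simp

theorem trans_mem (V : Subgroup (RegularWreathProduct M N)) [hV : V.Normal] (f : N → M)
    (hf : f ∈ V.comap jj) (n : N) : (fun x => f (n⁻¹ * x)) ∈ V.comap jj := by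
  rw [Subgroup.mem_comap] at hf ⊢
  have h := hV.conj_mem _ hf ⟨1, n⟩
  convert h using 1
  apply RegularWreathProduct.ext
  · funext x
    simp [jj]
  · simp [jj]

theorem comm_mem (V : Subgroup (RegularWreathProduct M N)) [hV : V.Normal] (f : N → M)
    (v : RegularWreathProduct M N) (hv : v ∈ V) :
    (fun x => f x * v.left x * (f (v.right⁻¹ * x))⁻¹ * (v.left x)⁻¹) ∈ V.comap jj := by
  rw [Subgroup.mem_comap]
  have h := V.mul_mem (hV.conj_mem _ hv (jj f)) (V.inv_mem hv)
  convert h using 1
  apply RegularWreathProduct.ext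
  · funext x
    simp [jj, mul_assoc]
  · simp [jj]

theorem taskC1 : H355R3.UF.TaskC1 := by
  intro M N _ _ _ _ _ V hVn hsurj hne
  classical
  set U : Subgroup (N → M) := V.comap jj with hU
  have hUn : U.Normal := hVn.comap jj
  -- U is proper
  have hUne : U ≠ ⊤ := by
    intro htop
    apply hne
    rw [eq_top_iff]
    intro w _
    obtain ⟨v, hv, hvr⟩ := hsurj w.right
    have h1 : w * v⁻¹ ∈ V := by
      have h2 : (fun x => (w * v⁻¹).left x) ∈ U := by rw [htop]; trivial
      rw [hU, Subgroup.mem_comap] at h2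
      convert h2 using 1
      apply RegularWreathProduct.ext
      · rfl
      · simp [jj, hvr]
    have h3 := V.mul_mem h1 hv
    rwa [inv_mul_cancel_right] at h3
  -- comparing the coordinates
  have hsingle : ∀ n : N, n ≠ 1 → ∃ w : M, ∀ m : M,
      Pi.mulSingle (M := fun _ : N => M) 1 m * Pi.mulSingle n (w * m⁻¹ * w⁻¹) ∈ U := by
    intro n hn
    obtain ⟨v, hv, hvr⟩ := hsurj n
    refine ⟨v.left n, fun m => ?_⟩
    have h := comm_mem V (Pi.mulSingle (M := fun _ : N => M) 1 m) v hv
    rw [← hU] at h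
    convert h using 1
    funext x
    rw [Pi.mul_apply, hvr]
    by_cases hx1 : x = 1
    · subst hx1
      have e1 : n⁻¹ * 1 ≠ 1 := by simpa using hn
      have e2 : (1 : N) ≠ n := fun h => hn h.symm
      rw [Pi.mulSingle_eq_same, Pi.mulSingle_eq_of_ne e2, Pi.mulSingle_eq_of_ne e1]
      group
    · by_cases hxn : x = n
      · subst hxn
        rw [Pi.mulSingle_eq_of_ne hx1, Pi.mulSingle_eq_same, inv_mul_cancel, Pi.mulSingle_eq_same]
        group
      · have e1 : n⁻¹ * x ≠ 1 := by
          intro h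
          apply hxn
          exact (inv_mul_eq_one.1 h).symm
        rw [Pi.mulSingle_eq_of_ne hx1, Pi.mulSingle_eq_of_ne hxn, Pi.mulSingle_eq_of_ne e1]
        group
  obtain ⟨n, hn⟩ := exists_ne (1 : N)
  have hc1 : ∀ m' m : M, Pi.mulSingle (M := fun _ : N => M) 1 (m' * m * m'⁻¹ * m⁻¹) ∈ U := by
    intro m' m
    obtain ⟨w, hw⟩ := hsingle n hn
    have h := U.mul_mem (hUn.conj_mem _ (hw m) (Pi.mulSingle (M := fun _ : N => M) 1 m'))
      (U.inv_mem (hw m))
    convert h using 1
    funext x
    simp only [Pi.mul_apply, Pi.inv_apply]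
    by_cases hx1 : x = 1
    · subst hx1
      have e2 : (1 : N) ≠ n := fun h => hn h.symm
      rw [Pi.mulSingle_eq_same, Pi.mulSingle_eq_same, Pi.mulSingle_eq_same,
        Pi.mulSingle_eq_of_ne e2]
      group
    · rw [Pi.mulSingle_eq_of_ne hx1, Pi.mulSingle_eq_of_ne hx1, Pi.mulSingle_eq_of_ne hx1]
      group
  have hcx : ∀ (x : N) (m' m : M),
      Pi.mulSingle (M := fun _ : N => M) x (m' * m * m'⁻¹ * m⁻¹) ∈ U := by
    intro x m' m
    have h := trans_mem V _ (hc1 m' m) x
    rw [← hU] at h
    convert h using 1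
    funext y
    by_cases hy : y = x
    · subst hy
      rw [Pi.mulSingle_eq_same, inv_mul_cancel, Pi.mulSingle_eq_same]
    · have e1 : x⁻¹ * y ≠ 1 := by
        intro h
        apply hy
        exact (inv_mul_eq_one.1 h).symm
      rw [Pi.mulSingle_eq_of_ne hy, Pi.mulSingle_eq_of_ne e1]
  -- the quotient is commutative
  let π : (N → M) →* ((N → M) ⧸ U) := QuotientGroup.mk' U
  have hπ1 : ∀ u ∈ U, π u = 1 := fun u hu => (QuotientGroup.eq_one_iff u).2 hu
  have hπ : ∀ f' f : N → M, π (f' * f * f'⁻¹) = π f := by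
    intro f'
    have h : π.comp (MulAut.conj f').toMonoidHom = π := by
      apply MonoidHom.pi_ext
      intro x m
      have e : (MulAut.conj f').toMonoidHom (Pi.mulSingle (M := fun _ : N => M) x m) =
          Pi.mulSingle (M := fun _ : N => M) x (f' x * m * (f' x)⁻¹ * m⁻¹) *
          Pi.mulSingle (M := fun _ : N => M) x m := by
        funext y
        simp only [MulEquiv.coe_toMonoidHom, MulAut.conj_apply, Pi.mul_apply, Pi.inv_apply]
        by_cases hy : y = x
        · subst hy
          rw [Pi.mulSingle_eq_same, Pi.mulSingle_eq_same]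
          group
        · rw [Pi.mulSingle_eq_of_ne hy, Pi.mulSingle_eq_of_ne hy]
          group
      rw [MonoidHom.comp_apply, e, map_mul, hπ1 _ (hcx x _ _), one_mul]
    intro f
    have := DFunLike.congr_fun h f
    simpa using this
  have : Nontrivial ((N → M) ⧸ U) := QuotientGroup.nontrivial_iff.2 hUne
  obtain ⟨S, i1, i2, i3, g, hg⟩ := exists_simple_quotient _ ((N → M) ⧸ U) le_rfl
  have hScomm : ∀ a b : S, a * b = b * a := by
    intro a b
    obtain ⟨a', rfl⟩ := hg a
    obtain ⟨b', rfl⟩ := hg b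
    obtain ⟨a'', rfl⟩ := QuotientGroup.mk'_surjective U a'
    obtain ⟨b'', rfl⟩ := QuotientGroup.mk'_surjective U b'
    have h := hπ a'' b''
    rw [map_mul, map_mul, map_inv, mul_inv_eq_iff_eq_mul] at h
    have h' := congrArg g h
    rw [map_mul g, map_mul g] at h'
    exact h'
  have hprime : (Nat.card S).Prime := by
    letI : CommGroup S := { i1 with mul_comm := hScomm }
    exact IsSimpleGroup.prime_card
  have hpf : Fact (Nat.card S).Prime := ⟨hprime⟩
  obtain ⟨e⟩ := nonempty_equiv_Zp (p := Nat.card S) S rfl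
  let Ψ : (N → M) →* Zp (Nat.card S) := e.toMonoidHom.comp (g.comp π)
  have hΨs : Function.Surjective Ψ :=
    e.surjective.comp (hg.comp (QuotientGroup.mk'_surjective U))
  have hΨU : ∀ u ∈ U, Ψ u = 1 := by
    intro u hu
    simp only [Ψ, MonoidHom.comp_apply, hπ1 u hu, map_one]
  let sg : N → M →* (N → M) := fun x => MonoidHom.mulSingle (fun _ : N => M) x
  let χ : M →* Zp (Nat.card S) := Ψ.comp (sg 1)
  have hχ : ∀ (x : N) (m : M), Ψ (Pi.mulSingle (M := fun _ : N => M) x m) = χ m := by
    intro x m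
    by_cases hx : x = 1
    · subst hx; rfl
    · obtain ⟨w, hw⟩ := hsingle x hx
      have h := hΨU _ (hw m)
      rw [map_mul] at h
      have e1 : Ψ (Pi.mulSingle (M := fun _ : N => M) x (w * m⁻¹ * w⁻¹)) =
          (Ψ (Pi.mulSingle (M := fun _ : N => M) x m))⁻¹ := by
        change (Ψ.comp (sg x)) (w * m⁻¹ * w⁻¹) = ((Ψ.comp (sg x)) m)⁻¹
        rw [map_mul, map_mul, map_inv, map_inv, mul_comm ((Ψ.comp (sg x)) w), mul_assoc,
          mul_inv_cancel, mul_one]
      rw [e1, mul_inv_eq_one] at h
      exact h.symm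
  let P : (N → M) →* Zp (Nat.card S) :=
    { toFun := fun f => ∏ x : N, χ (f x)
      map_one' := by simp
      map_mul' := by intro a b; simp [Finset.prod_mul_distrib] }
  have hP : Ψ = P := by
    apply MonoidHom.pi_ext
    intro x m
    rw [hχ]
    change χ m = ∏ y : N, χ ((Pi.mulSingle (M := fun _ : N => M) x m) y)
    rw [Finset.prod_eq_single x]
    · rw [Pi.mulSingle_eq_same]
    · intro y _ hy
      rw [Pi.mulSingle_eq_of_ne hy, map_one]
    · intro h; exact absurd (Finset.mem_univ x) h
  refine ⟨Nat.card S, hpf, χ, ?_, ?_⟩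
  · intro z
    obtain ⟨f, rfl⟩ := hΨs z
    rw [hP]
    change (∏ x : N, χ (f x)) ∈ χ.range
    exact Subgroup.prod_mem _ (fun x _ => ⟨f x, rfl⟩)
  · intro v hv hv1
    have hu : v.left ∈ U := by
      rw [hU, Subgroup.mem_comap]
      convert hv using 1
      exact RegularWreathProduct.ext rfl hv1.symm
    have h := hΨU _ hu
    rw [hP] at h
    exact h

end Pool.Agent.H12R3.UF
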